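import Mathlib

set_option autoImplicit false

namespace Pool.Agent.H.MP_f264ea_lc

open FirstOrder FirstOrder.Language

universe u

/-- Formulas of the infinitary logic over an algebraic signature `L` with variables from `V`. -/
inductive Fml (L : FirstOrder.Language.{0, 0}) (V : Type) : Type 1
  | eq : L.Term V → L.Term V → Fml L V
  | not : Fml L V → Fml L V
  | conj : (I : Type) → (I → Fml L V) → Fml L V
  | disj : (I : Type) → (I → Fml L V) → Fml L V
  | ex : Set V → Fml L V → Fml L V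
  | all : Set V → Fml L V → Fml L V

/-- variables of a term -/
def tvars {L : FirstOrder.Language.{0, 0}} {V : Type} : L.Term V → Set V
  | .var x => {x}
  | .func _ ts => ⋃ i, tvars (ts i)

/-- free variables -/
def Fml.free {L : FirstOrder.Language.{0, 0}} {V : Type} : Fml L V → Set V
  | .eq s t => tvars s ∪ tvars t
  | .not φ => φ.free
  | .conj _ φ => ⋃ i, (φ i).free
  | .disj _ φ => ⋃ i, (φ i).free
  | .ex S φ => φ.free \ S
  | .all S φ => φ.free \ S

/-- satisfaction under an assignment -/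
def Fml.Sat {L : FirstOrder.Language.{0, 0}} {V : Type} {M : Type u} [L.Structure M] :
    Fml L V → (V → M) → Prop
  | .eq s t, v => s.realize v = t.realize v
  | .not φ, v => ¬ φ.Sat v
  | .conj _ φ, v => ∀ i, (φ i).Sat v
  | .disj _ φ, v => ∃ i, (φ i).Sat v
  | .ex S φ, v => ∃ w : V → M, (∀ x, x ∉ S → w x = v x) ∧ φ.Sat w
  | .all S φ, v => ∀ w : V → M, (∀ x, x ∉ S → w x = v x) → φ.Sat w

/-- two binary operations admit finite separating colourings -/
def Sep {M : Type u} (a m : M → M → M) : Prop :=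
  ∀ g h : M, g ≠ h → ∃ (n : ℕ) (α μ : Fin n → Fin n → Fin n) (χ : M → Fin n), χ g ≠ χ h ∧
    (∀ x y, χ (a x y) = α (χ x) (χ y)) ∧ ∀ x y, χ (m x y) = μ (χ x) (χ y)

lemma compact {M : Type u} (a m : M → M → M) (g h : M) (hne : g ≠ h) (n : ℕ)
    (α μ : Fin n → Fin n → Fin n) (H : ∀ x : ℕ → M, x 0 = g → x 1 = h → ∃ f : ℕ → Fin n,
      f 0 ≠ f 1 ∧ (∀ i j k, a (x i) (x j) = x k → α (f i) (f j) = f k) ∧
        ∀ i j k, m (x i) (x j) = x k → μ (f i) (f j) = f k) :
    ∃ χ : M → Fin n, χ g ≠ χ h ∧ (∀ x y, χ (a x y) = α (χ x) (χ y)) ∧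
      ∀ x y, χ (m x y) = μ (χ x) (χ y) := by
  classical
  choose f h0 h1 h2 using fun S : Finset M => H (fun i => (g :: h :: S.toList).getD i g) rfl rfl
  obtain ⟨χ, hχ⟩ := Finset.rado_selection (β := fun _ => Fin n)
    fun S y => f S ((g :: h :: S.toList).idxOf y)
  have key : ∀ (S : Finset M), ∀ y ∈ S,
      (g :: h :: S.toList).getD ((g :: h :: S.toList).idxOf y) g = y := by
    intro S y hy
    have : y ∈ g :: h :: S.toList := by simp [hy]
    rw [List.getD_eq_getElem _ _ (List.idxOf_lt_length_of_mem this), List.getElem_idxOf]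
  refine ⟨χ, ?_, fun x y => ?_, fun x y => ?_⟩
  · obtain ⟨t, -, ht⟩ := hχ {g, h}
    rw [ht g (by simp), ht h (by simp)]
    simpa [List.idxOf_cons_ne _ hne] using h0 t
  · obtain ⟨t, hs, ht⟩ := hχ {x, y, a x y}
    rw [ht x (by simp), ht y (by simp), ht _ (by simp)]
    refine (h1 t _ _ _ ?_).symm
    rw [key t x (hs (by simp)), key t y (hs (by simp)), key t _ (hs (by simp))]
  · obtain ⟨t, hs, ht⟩ := hχ {x, y, m x y}
    rw [ht x (by simp), ht y (by simp), ht _ (by simp)]
    refine (h2 t _ _ _ ?_).symm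
    rw [key t x (hs (by simp)), key t y (hs (by simp)), key t _ (hs (by simp))]

/-- the colouring respects the operation -/
def resp {L : FirstOrder.Language.{0, 0}} (A : L.Functions 2) {n : ℕ} (α : Fin n → Fin n → Fin n)
    (f : ℕ → Fin n) : Fml L ℕ :=
  .conj {z : ℕ × ℕ × ℕ // α (f z.1) (f z.2.1) ≠ f z.2.2} fun z =>
    .not (.eq (A.apply₂ (.var z.1.1) (.var z.1.2.1)) (.var z.1.2.2))

lemma resp_sat {L : FirstOrder.Language.{0, 0}} (A : L.Functions 2) {n : ℕ} (α : Fin n → Fin n → Fin n)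
    (f : ℕ → Fin n) {M : Type u} [L.Structure M] (x : ℕ → M) : (resp A α f).Sat x ↔
      ∀ i j k, Structure.funMap A ![x i, x j] = x k → α (f i) (f j) = f k := by
  simp only [resp, Fml.Sat, Term.realize_functions_apply₂, Term.realize_var, Subtype.forall,
    Prod.forall]
  exact forall₃_congr fun _ _ _ => not_imp_not

/-- the separation formula -/
def sep {L : FirstOrder.Language.{0, 0}} (A B : L.Functions 2) : Fml L ℕ :=
  .disj Bool fun b => match b with
    | true => .eq (.var 0) (.var 1)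
    | false => .disj (Σ n : ℕ, (Fin n → Fin n → Fin n) × (Fin n → Fin n → Fin n)) fun z =>
        .all {i | 2 ≤ i} (.disj {f : ℕ → Fin z.1 // f 0 ≠ f 1} fun f =>
          .conj Bool fun c => match c with
            | true => resp A z.2.1 f
            | false => resp B z.2.2 f)

lemma sep_sat {L : FirstOrder.Language.{0, 0}} (A B : L.Functions 2) (M : Type u) [L.Structure M] :
    (∀ v : ℕ → M, (sep A B).Sat v) ↔ Sep (fun x y : M => Structure.funMap A ![x, y])
      fun x y => Structure.funMap B ![x, y] := by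
  simp only [sep, Fml.Sat, Bool.exists_bool, Bool.forall_bool, resp_sat, Term.realize_var]
  constructor
  · intro H g h hne
    obtain ⟨⟨n, α, μ⟩, H⟩ := (H fun i => if i = 0 then g else h).resolve_right hne
    refine ⟨n, α, μ, compact _ _ g h hne n α μ fun x h0 h1 => ?_⟩
    obtain ⟨f, h2, h3⟩ := H x fun i hi => by
      have : i = 0 ∨ i = 1 := by simp only [Set.mem_ofPred_eq] at hi; omega
      rcases this with rfl | rfl <;> simpa
    exact ⟨f, f.2, h3, h2⟩
  · intro H v
    rw [or_iff_not_imp_right]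
    intro hne
    obtain ⟨n, α, μ, χ, h1, h2, h3⟩ := H _ _ hne
    refine ⟨⟨n, α, μ⟩, fun w hw => ⟨⟨fun i => χ (w i), ?_⟩, fun i j k e => ?_, fun i j k e => ?_⟩⟩
    · simpa only [hw 0 (by simp), hw 1 (by simp)] using h1
    · exact (h3 _ _).symm.trans (congrArg χ e)
    · exact (h2 _ _).symm.trans (congrArg χ e)

/-- universal closure of a conjunction of identities and one more formula -/
def close {L : FirstOrder.Language.{0, 0}} {k : ℕ} (E : Fin k → L.Term ℕ × L.Term ℕ) (φ : Fml L ℕ) :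
    Fml L ℕ :=
  .all Set.univ (.conj (Option (Fin k)) fun o => match o with
    | none => φ
    | some i => .eq (E i).1 (E i).2)

lemma close_free {L : FirstOrder.Language.{0, 0}} {k : ℕ} (E : Fin k → L.Term ℕ × L.Term ℕ) (φ : Fml L ℕ) :
    (close E φ).free = ∅ := Set.sdiff_univ _

lemma close_sat {L : FirstOrder.Language.{0, 0}} {k : ℕ} (E : Fin k → L.Term ℕ × L.Term ℕ) (φ : Fml L ℕ)
    {M : Type u} [L.Structure M] : (∀ v : ℕ → M, (close E φ).Sat v) ↔
      (∀ v : ℕ → M, φ.Sat v) ∧ ∀ (v : ℕ → M) i, (E i).1.realize v = (E i).2.realize v := by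
  simp only [close, Fml.Sat, Option.forall, Set.mem_univ, not_true, false_imp_iff, forall_const,
    forall_and]
  exact ⟨fun ⟨h1, h2⟩ => ⟨fun v => h1 v v, fun v => h2 v v⟩,
    fun ⟨h1, h2⟩ => ⟨fun _ => h1, fun _ => h2⟩⟩

end Pool.Agent.H.MP_f264ea_lc
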